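import Pool.Agent.H891R2.TR.Defs

set_option autoImplicit false

namespace Pool.Agent.H891R2.TR.W3

open Finset

theorem generic_ne {k : ℕ} {M : ℤ} (hM : 0 ≤ M) {w : Fin k → ℤ} (h : Generic M w) (e : Fin k) : 
    w e ≠ 0 := by
  intro h0
  have := h (fun i => if i = e then 1 else 0) (fun i => by split_ifs <;> simp) (fun h1 => by
    have := congrFun h1 e
    simp at this)
  simp only [ite_mul, one_mul, zero_mul, Finset.sum_ite_eq', Finset.mem_univ, if_true, h0, 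
    abs_zero] at this
  linarith

theorem generic_abs {k : ℕ} {M : ℤ} (_hM : 0 ≤ M) {w : Fin k → ℤ} (h : Generic M w) 
    (a : Fin k → ℤ) (ha : ∀ e, |a e| ≤ 8) (hs : |(∑ e, a e * |w e|)| ≤ M) (e : Fin k) : a e = 0 := by
  by_contra hne
  have h1 := h (fun e => a e * (if w e < 0 then -1 else 1)) (fun e => by
    have := ha e
    split_ifs <;> simpa using this) (fun h0 => by
      have := congrFun h0 e
      simp only [Pi.zero_apply] at this
      split_ifs at this <;> simp at this <;> exact hne this)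
  have h2 : ∑ e, a e * (if w e < 0 then -1 else 1) * w e = ∑ e, a e * |w e| := by
    refine Finset.sum_congr rfl fun e _ => ?_
    split_ifs with h3
    · rw [abs_of_neg h3]; ring
    · rw [abs_of_nonneg (not_lt.1 h3)]; ring
  rw [h2] at h1
  linarith

/-- indicator function -/
def io {k : ℕ} (S : Finset (Fin k)) (e : Fin k) : ℤ := if e ∈ S then 1 else 0

theorem sum_io {k : ℕ} (S : Finset (Fin k)) (f : Fin k → ℤ) : ∑ e ∈ S, f e = ∑ e, io S e * f e := by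
  unfold io
  simp only [ite_mul, one_mul, zero_mul, Finset.sum_ite_mem, Finset.univ_inter]

theorem add_io {k : ℕ} {M E : ℤ} (hE : 0 ≤ E) (hM : 2 * E ≤ M) {w : Fin k → ℤ} (h : Generic M w) 
    (S S1 S2 : Finset (Fin k)) (x1 x2 : ℤ) (h1 : |(x1 - 4 * ∑ e ∈ S1, |w e|)| ≤ 2 * E) 
    (h2 : |(x2 - 4 * ∑ e ∈ S2, |w e|)| ≤ 2 * E) (h3 : |(x1 + x2 - 4 * ∑ e ∈ S, |w e|)| ≤ 2 * E) 
    (e : Fin k) : io S e = io S1 e + io S2 e := by
  have hs : ∑ e, (io S e - io S1 e - io S2 e) * |w e| = 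
      ∑ e ∈ S, |w e| - ∑ e ∈ S1, |w e| - ∑ e ∈ S2, |w e| := by
    rw [sum_io S, sum_io S1, sum_io S2, ← Finset.sum_sub_distrib, ← Finset.sum_sub_distrib]
    exact Finset.sum_congr rfl fun e _ => by ring
  have := generic_abs (by linarith) h (fun e => io S e - io S1 e - io S2 e) (fun e => by
    unfold io
    split_ifs <;> simp) (by
      rw [hs]
      rw [abs_le] at h1 h2 h3 ⊢
      constructor <;> linarith [h1.1, h1.2, h2.1, h2.2, h3.1, h3.2]) e
  linarith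

theorem uniq {k : ℕ} {M E : ℤ} (hE : 0 ≤ E) (hM : 2 * E ≤ M) {w : Fin k → ℤ} (h : Generic M w) 
    (S1 S2 : Finset (Fin k)) (x : ℤ) (h1 : |(x - 4 * ∑ e ∈ S1, |w e|)| ≤ 2 * E) 
    (h2 : |(x - 4 * ∑ e ∈ S2, |w e|)| ≤ 2 * E) : S1 = S2 := by
  have h3 : |(x + 0 - 4 * ∑ e ∈ S2, |w e|)| ≤ 2 * E := by simpa using h2
  have h4 : |((0 : ℤ) - 4 * ∑ e ∈ (∅ : Finset (Fin k)), |w e|)| ≤ 2 * E := by simpa using hE
  have := add_io hE hM h S2 S1 ∅ x 0 h1 h4 h3
  ext e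
  have he := this e
  unfold io at he
  by_cases a : e ∈ S1 <;> by_cases b : e ∈ S2 <;> simp [a, b] at he ⊢

theorem mono {k k' : ℕ} {M E : ℤ} (hE : 0 ≤ E) (hM : 2 * E ≤ M) {w : Fin k → ℤ} {w' : Fin k' → ℤ} 
    (h' : Generic M w') (φ : Finset (Fin k) → Finset (Fin k')) 
    (hφ : ∀ S, |(4 * ∑ e ∈ S, |w e| - 4 * ∑ e ∈ φ S, |w' e|)| ≤ 2 * E) (S T : Finset (Fin k)) 
    (hST : S ⊆ T) : φ S ⊆ φ T := by
  have h1 : ∑ e ∈ T, |w e| = ∑ e ∈ S, |w e| + ∑ e ∈ T \ S, |w e| := by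
    rw [add_comm]; exact (Finset.sum_sdiff hST).symm
  have h3 := hφ T
  rw [h1, mul_add] at h3
  have := add_io hE hM h' (φ T) (φ S) (φ (T \ S)) _ _ (hφ S) (hφ (T \ S)) h3
  intro e he
  have h4 := this e
  unfold io at h4
  by_contra hn
  rw [if_neg hn, if_pos he] at h4
  split_ifs at h4 <;> omega

theorem bij {k k' : ℕ} {M E : ℤ} (hE : 0 ≤ E) (hM : 2 * E ≤ M) {w : Fin k → ℤ} {w' : Fin k' → ℤ} 
    (h : Generic M w) (h' : Generic M w') 
    (h1 : ∀ S : Finset (Fin k), ∃ S' : Finset (Fin k'), 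
      |(4 * ∑ e ∈ S, |w e| - 4 * ∑ e ∈ S', |w' e|)| ≤ 2 * E) 
    (h2 : ∀ S' : Finset (Fin k'), ∃ S : Finset (Fin k), 
      |(4 * ∑ e ∈ S, |w e| - 4 * ∑ e ∈ S', |w' e|)| ≤ 2 * E) : 
    ∃ σ : Fin k ≃ Fin k', ∀ e, |(4 * |w e| - 4 * |w' (σ e)|)| ≤ 2 * E := by
  choose φ hφ using h1
  choose ψ hψ using h2
  have hψ' : ∀ S', |(4 * ∑ e ∈ S', |w' e| - 4 * ∑ e ∈ ψ S', |w e|)| ≤ 2 * E := fun S' => by
    rw [abs_sub_comm]; exact hψ S'
  have hl : ∀ S, ψ (φ S) = S := fun S => 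
    uniq hE hM h _ _ (4 * ∑ e ∈ φ S, |w' e|) (hψ' _) (by rw [abs_sub_comm]; exact hφ S)
  have hr : ∀ S', φ (ψ S') = S' := fun S' => 
    uniq hE hM h' _ _ (4 * ∑ e ∈ ψ S', |w e|) (hφ _) (hψ S')
  let Φ : Finset (Fin k) ≃o Finset (Fin k') := 
    { toFun := φ
      invFun := ψ
      left_inv := hl
      right_inv := hr
      map_rel_iff' := by
        intro S T
        refine ⟨fun h3 => ?_, fun h3 => mono hE hM h' φ hφ S T h3⟩
        have := mono hE hM h ψ hψ' _ _ h3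
        simp only [Equiv.coe_fn_mk] at this
        rw [hl, hl] at this
        exact this }
  have hat : ∀ e : Fin k, ∃ e' : Fin k', φ {e} = {e'} := fun e => by
    have : IsAtom (Φ {e}) := (OrderIso.isAtom_iff Φ _).2 (Finset.isAtom_singleton e)
    exact Finset.isAtom_iff.1 this
  have hat' : ∀ e' : Fin k', ∃ e : Fin k, ψ {e'} = {e} := fun e' => by
    have : IsAtom (Φ.symm {e'}) := (OrderIso.isAtom_iff Φ.symm _).2 (Finset.isAtom_singleton e')
    exact Finset.isAtom_iff.1 this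
  choose f hf using hat
  choose g hg using hat'
  refine ⟨⟨f, g, fun e => ?_, fun e' => ?_⟩, fun e => ?_⟩
  · have := hl {e}
    rw [hf, hg] at this
    exact Finset.singleton_injective this
  · have := hr {e'}
    rw [hg, hf] at this
    exact Finset.singleton_injective this
  · have := hφ {e}
    rw [hf] at this
    simpa using this

/-- change of coordinates -/
def tr {k : ℕ} (w : Fin k → ℤ) (S : Finset (Fin k)) : Finset (Fin k) := 
  Finset.univ.filter (fun e => (e ∈ S ↔ w e < 0))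

theorem tr_tr {k : ℕ} (w : Fin k → ℤ) (S : Finset (Fin k)) : tr w (tr w S) = S := by
  ext e
  simp only [tr, Finset.mem_filter, Finset.mem_univ, true_and]
  tauto

/-- coefficients -/
def ka {k : ℕ} (w τ : Fin k → ℤ) (e : Fin k) : ℤ := if w e < 0 then 3 * τ e - 1 else -3 - 3 * τ e

theorem val_tr {k : ℕ} (w τ : Fin k → ℤ) (S : Finset (Fin k)) : 
    ∑ e, (1 - 3 * τ e) * w e - 4 * ∑ e ∈ tr w S, w e = 
      ∑ e, ka w τ e * |w e| + 4 * ∑ e ∈ S, |w e| := by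
  rw [sum_io (tr w S), sum_io S, Finset.mul_sum, Finset.mul_sum, ← Finset.sum_sub_distrib, 
    ← Finset.sum_add_distrib]
  refine Finset.sum_congr rfl fun e _ => ?_
  unfold ka io tr
  simp only [Finset.mem_filter, Finset.mem_univ, true_and]
  by_cases h1 : e ∈ S <;> by_cases h2 : w e < 0
  · simp only [h1, h2, iff_self, if_true, abs_of_neg h2]; ring
  · simp only [h1, h2, iff_false, not_true_eq_false, if_true, if_false, abs_of_nonneg (not_lt.1 h2)]; ring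
  · simp only [h1, h2, iff_true, if_true, if_false, abs_of_neg h2]; ring
  · simp only [h1, h2, iff_self, if_true, if_false, abs_of_nonneg (not_lt.1 h2)]; ring

theorem decode {k k' : ℕ} (E : ℤ) (hE : 0 ≤ E) (K : ℕ) (hk : k ≤ K) (hk' : k' ≤ K) 
    (w : Fin k → ℤ) (w' : Fin k' → ℤ) (τ : Fin k → ℤ) (τ' : Fin k' → ℤ) 
    (hτ : ∀ e, τ e = 1 ∨ τ e = -1) (hτ' : ∀ e, τ' e = 1 ∨ τ' e = -1) 
    (hw : Generic ((3 * K + 1) * E) w) (hw' : Generic ((3 * K + 1) * E) w')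
    (h1 : ∀ R : Finset (Fin k), ∃ R' : Finset (Fin k'), 
      |(∑ e, (1 - 3 * τ e) * w e - 4 * ∑ e ∈ R, w e) - 
        (∑ e, (1 - 3 * τ' e) * w' e - 4 * ∑ e ∈ R', w' e)| ≤ E)
    (h2 : ∀ R' : Finset (Fin k'), ∃ R : Finset (Fin k), 
      |(∑ e, (1 - 3 * τ e) * w e - 4 * ∑ e ∈ R, w e) - 
        (∑ e, (1 - 3 * τ' e) * w' e - 4 * ∑ e ∈ R', w' e)| ≤ E) :
    ∃ σ : Fin k ≃ Fin k', ∀ e, |w e - w' (σ e)| ≤ E := by
  rcases Nat.eq_zero_or_pos K with hK | hK
  · subst hK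
    obtain rfl : k = 0 := by omega
    obtain rfl : k' = 0 := by omega
    exact ⟨Equiv.refl _, fun e => e.elim0⟩
  have hKz : (1 : ℤ) ≤ K := by exact_mod_cast hK
  have hM : 2 * E ≤ (3 * K + 1) * E := by nlinarith
  have hM0 : 0 ≤ (3 * K + 1) * E := by nlinarith
  -- change of coordinates
  have g1 : ∀ S : Finset (Fin k), ∃ S' : Finset (Fin k'), 
      |(∑ e, ka w τ e * |w e| + 4 * ∑ e ∈ S, |w e|) - 
        (∑ e, ka w' τ' e * |w' e| + 4 * ∑ e ∈ S', |w' e|)| ≤ E := fun S => by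
    obtain ⟨R', hR'⟩ := h1 (tr w S)
    refine ⟨tr w' R', ?_⟩
    rw [← val_tr, ← val_tr, tr_tr]
    exact hR'
  have g2 : ∀ S' : Finset (Fin k'), ∃ S : Finset (Fin k), 
      |(∑ e, ka w τ e * |w e| + 4 * ∑ e ∈ S, |w e|) - 
        (∑ e, ka w' τ' e * |w' e| + 4 * ∑ e ∈ S', |w' e|)| ≤ E := fun S' => by
    obtain ⟨R, hR⟩ := h2 (tr w' S')
    refine ⟨tr w R, ?_⟩
    rw [← val_tr, ← val_tr, tr_tr]
    exact hR
  have hnn : ∀ S : Finset (Fin k), 0 ≤ ∑ e ∈ S, |w e| := fun S => 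
    Finset.sum_nonneg fun e _ => abs_nonneg _
  have hnn' : ∀ S : Finset (Fin k'), 0 ≤ ∑ e ∈ S, |w' e| := fun S => 
    Finset.sum_nonneg fun e _ => abs_nonneg _
  have hb : |(∑ e, ka w τ e * |w e| - ∑ e, ka w' τ' e * |w' e|)| ≤ E := by
    obtain ⟨S', hS'⟩ := g1 ∅
    obtain ⟨S, hS⟩ := g2 ∅
    rw [Finset.sum_empty] at hS hS'
    rw [abs_le] at hS hS' ⊢
    have := hnn S
    have := hnn' S'
    constructor <;> linarith [hS.1, hS.2, hS'.1, hS'.2]
  obtain ⟨σ, hσ⟩ := bij hE hM hw hw' (fun S => by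
    obtain ⟨S', hS'⟩ := g1 S
    refine ⟨S', ?_⟩
    rw [abs_le] at hS' hb ⊢
    constructor <;> linarith [hb.1, hb.2, hS'.1, hS'.2]) (fun S' => by
    obtain ⟨S, hS⟩ := g2 S'
    refine ⟨S, ?_⟩
    rw [abs_le] at hS hb ⊢
    constructor <;> linarith [hb.1, hb.2, hS.1, hS.2])
  refine ⟨σ, fun e => ?_⟩
  have ht : ∀ e, |ka w' τ' (σ e)| ≤ 6 := fun e => by
    unfold ka
    rcases hτ' (σ e) with h | h <;> rw [h] <;> split_ifs <;> norm_num
  have hdiff : |(∑ e, (ka w τ e - ka w' τ' (σ e)) * |w e|)| ≤ (3 * K + 1) * E := by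
    have e1 : ∑ e, ka w' τ' e * |w' e| = ∑ e, ka w' τ' (σ e) * |w' (σ e)| := 
      (Equiv.sum_comp σ (fun e => ka w' τ' e * |w' e|)).symm
    have e2 : ∑ e, (ka w τ e - ka w' τ' (σ e)) * |w e| = 
        (∑ e, ka w τ e * |w e| - ∑ e, ka w' τ' e * |w' e|) - 
          ∑ e, ka w' τ' (σ e) * (|w e| - |w' (σ e)|) := by
      rw [e1, ← Finset.sum_sub_distrib, ← Finset.sum_sub_distrib]
      exact Finset.sum_congr rfl fun e _ => by ring
    have e3 : |∑ e, ka w' τ' (σ e) * (|w e| - |w' (σ e)|)| ≤ K * (3 * E) := by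
      refine (Finset.abs_sum_le_sum_abs _ _).trans ?_
      have : ∀ e ∈ (Finset.univ : Finset (Fin k)), 
          |ka w' τ' (σ e) * (|w e| - |w' (σ e)|)| ≤ 3 * E := fun e _ => by
        rw [abs_mul]
        have a1 := ht e
        have a2 := hσ e
        have a3 : 4 * |(|w e| - |w' (σ e)|)| ≤ 2 * E := by
          have : |(4 * |w e| - 4 * |w' (σ e)|)| = 4 * |(|w e| - |w' (σ e)|)| := by
            rw [← mul_sub, abs_mul]; norm_num
          linarith
        nlinarith [abs_nonneg (ka w' τ' (σ e)), abs_nonneg (|w e| - |w' (σ e)|)]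
      refine (Finset.sum_le_card_nsmul _ _ _ this).trans ?_
      simp only [Finset.card_univ, Fintype.card_fin, nsmul_eq_mul]
      have : (k : ℤ) ≤ K := by exact_mod_cast hk
      nlinarith
    rw [e2]
    refine (abs_sub _ _).trans ?_
    linarith
  have hka := generic_abs hM0 hw (fun e => ka w τ e - ka w' τ' (σ e)) (fun e => by
    unfold ka
    rcases hτ e with h | h <;> rcases hτ' (σ e) with h' | h' <;> rw [h, h'] <;> split_ifs <;> 
      norm_num) hdiff e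
  have hsign : (w e < 0 ↔ w' (σ e) < 0) := by
    unfold ka at hka
    rcases hτ e with h | h <;> rcases hτ' (σ e) with h' | h' <;> rw [h, h'] at hka <;> 
      split_ifs at hka with b1 b2 b3 <;> constructor <;> intro hh <;> omega
  have h5 := hσ e
  by_cases hn : w e < 0
  · rw [abs_of_neg hn, abs_of_neg (hsign.1 hn)] at h5
    rw [abs_le] at h5 ⊢
    constructor <;> linarith [h5.1, h5.2]
  · have hn' : ¬ w' (σ e) < 0 := fun h => hn (hsign.2 h)
    rw [abs_of_nonneg (not_lt.1 hn), abs_of_nonneg (not_lt.1 hn')] at h5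
    rw [abs_le] at h5 ⊢
    constructor <;> linarith [h5.1, h5.2]

end Pool.Agent.H891R2.TR.W3
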