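import Pool.Agent.H891R2.TR.Defs

set_option autoImplicit false

namespace Pool.Agent.H891R2.TR.W5

open Finset

theorem slice {k : ℕ} (N : ℕ) (a : Fin k → ℤ) (e0 : Fin k) (ha : a e0 ≠ 0) (v : ℤ) : 
    ((Fintype.piFinset (fun _ : Fin k => Finset.Icc (-(N : ℤ)) N)).filter 
      (fun w => ∑ e, a e * w e = v)).card ≤ (2 * N + 1) ^ (k - 1) := by
  classical
  have hcard : (Fintype.piFinset (fun _ : {e : Fin k // e ≠ e0} => Finset.Icc (-(N : ℤ)) N)).card = 
      (2 * N + 1) ^ (k - 1) := by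
    rw [Fintype.card_piFinset, Finset.prod_const, Finset.card_univ]
    congr 1
    · rw [Int.card_Icc]
      omega
    · rw [Fintype.card_subtype_compl, Fintype.card_fin, Fintype.card_subtype_eq]
  rw [← hcard]
  refine Finset.card_le_card_of_injOn (fun w e => w e.1) (fun w hw => ?_) (fun w hw w' hw' h => ?_)
  · rw [Finset.mem_coe, Finset.mem_filter, Fintype.mem_piFinset] at hw
    rw [Finset.mem_coe, Fintype.mem_piFinset]
    exact fun e => hw.1 e.1
  · rw [Finset.mem_coe, Finset.mem_filter] at hw hw'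
    have hoff : ∀ e, e ≠ e0 → w e = w' e := fun e he => congrFun h ⟨e, he⟩
    have h1 : ∑ e, a e * (w e - w' e) = 0 := by
      simp only [mul_sub, Finset.sum_sub_distrib]
      rw [hw.2, hw'.2, sub_self]
    rw [Finset.sum_eq_single e0 (fun e _ he => by rw [hoff e he]; ring) 
      (fun h => absurd (Finset.mem_univ _) h)] at h1
    rcases mul_eq_zero.1 h1 with h2 | h2
    · exact absurd h2 ha
    · funext e
      by_cases he : e = e0
      · subst he; linarith
      · exact hoff e he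

theorem count_generic {k : ℕ} (_hk : 0 < k) (M N : ℕ) : 
    {w : Fin k → ℤ | (∀ e, |w e| ≤ N) ∧ ¬ Generic (M : ℤ) w}.ncard ≤ 
      17 ^ k * (2 * M + 1) * (2 * N + 1) ^ (k - 1) := by
  classical
  set B := Fintype.piFinset (fun _ : Fin k => Finset.Icc (-(N : ℤ)) N)
  set A := (Fintype.piFinset (fun _ : Fin k => Finset.Icc (-8 : ℤ) 8)).filter (fun a => a ≠ 0)
  set V := Finset.Icc (-(M : ℤ)) M
  have hsub : {w : Fin k → ℤ | (∀ e, |w e| ≤ N) ∧ ¬ Generic (M : ℤ) w} ⊆ 
      (((A ×ˢ V).biUnion (fun p => B.filter (fun w => ∑ e, p.1 e * w e = p.2)) : 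
        Finset (Fin k → ℤ)) : Set (Fin k → ℤ)) := by
    rintro w ⟨hw, hg⟩
    unfold Generic at hg
    push Not at hg
    obtain ⟨a, ha, ha0, hs⟩ := hg
    rw [Finset.mem_coe, Finset.mem_biUnion]
    refine ⟨(a, ∑ e, a e * w e), ?_, ?_⟩
    · rw [Finset.mem_product, Finset.mem_filter, Fintype.mem_piFinset]
      refine ⟨⟨fun e => ?_, ha0⟩, ?_⟩
      · rw [Finset.mem_Icc]
        exact abs_le.1 (ha e)
      · rw [Finset.mem_Icc]
        exact abs_le.1 hs
    · rw [Finset.mem_filter, Fintype.mem_piFinset]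
      refine ⟨fun e => ?_, rfl⟩
      rw [Finset.mem_Icc]
      exact abs_le.1 (hw e)
  refine (Set.ncard_le_ncard hsub (Finset.finite_toSet _)).trans ?_
  rw [Set.ncard_coe_finset]
  refine (Finset.card_biUnion_le_card_mul _ _ ((2 * N + 1) ^ (k - 1)) (fun p hp => ?_)).trans ?_
  · rw [Finset.mem_product, Finset.mem_filter] at hp
    obtain ⟨e0, he0⟩ : ∃ e0, p.1 e0 ≠ 0 := by
      by_contra hcon
      push Not at hcon
      exact hp.1.2 (funext hcon)
    exact slice N p.1 e0 he0 p.2
  · refine Nat.mul_le_mul_right _ ?_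
    rw [Finset.card_product]
    refine Nat.mul_le_mul ?_ (le_of_eq ?_)
    · refine (Finset.card_filter_le _ _).trans (le_of_eq ?_)
      rw [Fintype.card_piFinset_const]
      congr 1
    · rw [Int.card_Icc]
      omega

end Pool.Agent.H891R2.TR.W5
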