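import Mathlib

set_option autoImplicit false

namespace Pool.Agent.H891R2.TR

/-- no combination `∑ a e * w e` with integer coefficients `|a e| ≤ 8`, not all zero, has absolute
value at most `M` -/
def Generic {k : ℕ} (M : ℤ) (w : Fin k → ℤ) : Prop :=
  ∀ a : Fin k → ℤ, (∀ e, |a e| ≤ 8) → a ≠ 0 → M < |∑ e, a e * w e|

end Pool.Agent.H891R2.TR
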