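import Pool.Agent.H891R2.TR.All
import Pool.Agent.H891R2.VS.Site

set_option autoImplicit false

/-! Assembly. -/

namespace Pool.Agent.H891R2.TR

open Finset LaurentPolynomial Pool.Agent.H891R2.Jones Pool.Agent.H891R2.MT Pool.Agent.H891R2.SI
  Pool.Agent.H832R3.VJ T4b

/-- clusters with different centres cannot cancel -/
theorem clusters {ι ι' : Type} [Fintype ι] [Fintype ι'] [DecidableEq ι] (B : ℤ) 
    (c : ι → ℤ) (c' : ι' → ℤ) (F : ι → ℤ[T;T⁻¹]) (F' : ι' → ℤ[T;T⁻¹]) 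
    (hF : ∀ i, SIn (F i) (c i - B) (c i + B)) (hF0 : ∀ i, F i ≠ 0) 
    (hF' : ∀ i, SIn (F' i) (c' i - B) (c' i + B)) 
    (hc : ∀ i j, i ≠ j → 2 * B < |c i - c j|) (h : ∑ i, F i = ∑ i, F' i) (i : ι) : 
    ∃ i', |c i - c' i'| ≤ 2 * B := by
  obtain ⟨j, hj⟩ : ∃ j, (F i).coeff j ≠ 0 := by
    by_contra hcon
    push Not at hcon
    apply hF0 i
    ext j
    exact hcon j
  have hi := hF i j hj
  have h1 : (∑ i, F i).coeff j = (F i).coeff j := by
    rw [AddMonoidAlgebra.coeff_sum, Finsupp.finsetSum_apply]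
    refine Finset.sum_eq_single i (fun b _ hb => ?_) (fun h => absurd (Finset.mem_univ i) h)
    by_contra hne
    have hb' := hF b j hne
    have := hc i b (Ne.symm hb)
    have h2 : |c i - c b| ≤ 2 * B := by rw [abs_le]; constructor <;> linarith [hi.1, hi.2, hb'.1, hb'.2]
    linarith
  have h2 : (∑ i, F' i).coeff j ≠ 0 := by rw [← h, h1]; exact hj
  rw [AddMonoidAlgebra.coeff_sum, Finsupp.finsetSum_apply] at h2
  obtain ⟨i', -, hi'⟩ := Finset.exists_ne_zero_of_sum_ne_zero h2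
  have h3 := hF' i' j hi'
  refine ⟨i', ?_⟩
  rw [abs_le]
  constructor <;> linarith [hi.1, hi.2, h3.1, h3.2]

/-- the cluster which belongs to the set `R` of sites -/
noncomputable def clu {k : ℕ} (O : Sites k) (w : Fin k → ℤ) (W : ℤ) (m : ℕ) (R : Finset (Fin k)) : 
    ℤ[T;T⁻¹] :=
  (if Even W then 1 else -1) * T (-3 * W + ∑ e, w e) * 
    (((-1) ^ (nS w R).natAbs * T (-4 * nS w R)) * ((-T 2 - T (-2)) ^ m * SI.Zp O R))

theorem sum_clu {k : ℕ} (hk : 0 < k) (O : Sites k) (w : Fin k → ℤ) 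
    (D : Diagram (O.P ⊕ Ribbon.Pt w)) (hD : Orients D (O.fill w)) (m : ℕ) :
    ∑ R, clu O w D.writhe m R = (-T 2 - T (-2)) ^ (k + m) * D.fPoly := by
  have : Nonempty (O.P ⊕ Ribbon.Pt w) := ⟨.inl (O.corner ⟨0, hk⟩ false false)⟩
  have hb : D.bracket = (O.fill w).std.bracket := MT.T6.bracket_orients D (O.fill w) hD
  have h3 := SI.S3 O hk w
  have h1 : (T (∑ e, w e) : ℤ[T;T⁻¹]) * T (- ∑ e, w e) = 1 := by
    rw [← T_add, add_neg_cancel, T_zero]
  unfold clu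
  rw [← Finset.mul_sum]
  have h4 : ∑ R : Finset (Fin k), ((-1) ^ (nS w R).natAbs * T (-4 * nS w R) : ℤ[T;T⁻¹]) * 
      ((-T 2 - T (-2)) ^ m * SI.Zp O R) = (-T 2 - T (-2)) ^ m * 
        ∑ R : Finset (Fin k), ((-1) ^ (nS w R).natAbs * T (-4 * nS w R)) * SI.Zp O R := by
    rw [Finset.mul_sum]
    exact Finset.sum_congr rfl fun R _ => by ring
  rw [h4, ← h3, Diagram.fPoly, hb, T_add, pow_add]
  linear_combination ((if Even D.writhe then 1 else -1) * T (-3 * D.writhe) * 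
    (-T 2 - T (-2)) ^ m * (-T 2 - T (-2)) ^ k * (O.fill w).std.bracket : ℤ[T;T⁻¹]) * h1

theorem sgn_eq (W : ℤ) : ((if Even W then 1 else -1 : ℤ[T;T⁻¹])) = C (if Even W then 1 else -1) := by
  split_ifs <;> simp

theorem clu_SIn {k : ℕ} (O : Sites k) (hO : O.Connected) (w : Fin k → ℤ) (W : ℤ) (m : ℕ) 
    (R : Finset (Fin k)) : SIn (clu O w W m R) 
      ((-3 * W + ∑ e, w e - 4 * nS w R) - (3 * O.crossings.length + 4 * k + 2 * m)) 
      ((-3 * W + ∑ e, w e - 4 * nS w R) + (3 * O.crossings.length + 4 * k + 2 * m)) := by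
  unfold clu
  rw [sgn_eq]
  refine (((SIn.C _).mul (SIn.T _)).mul 
    (((SIn_sgn _).mul (SIn.T _)).mul ((SIn_d.pow m).mul (SI.S4 O hO R)))).mono ?_ ?_ <;> linarith

theorem clu_ne {k : ℕ} (O : Sites k) (hdet : det O.cut ≠ 0) (w : Fin k → ℤ) (W : ℤ) (m : ℕ) 
    (R : Finset (Fin k)) : clu O w W m R ≠ 0 := by
  unfold clu
  have hT : ∀ n : ℤ, (T n : ℤ[T;T⁻¹]) ≠ 0 := fun n h => by
    have h1 : (T n * T (-n) : ℤ[T;T⁻¹]) = 1 := by rw [← T_add, add_neg_cancel, T_zero]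
    rw [h, zero_mul] at h1
    exact zero_ne_one h1
  have hs : (if Even W then 1 else -1 : ℤ[T;T⁻¹]) ≠ 0 := by split_ifs <;> simp
  exact mul_ne_zero (mul_ne_zero hs (hT _)) (mul_ne_zero (mul_ne_zero (pow_ne_zero _ (by simp)) (hT _)) 
    (mul_ne_zero (pow_ne_zero _ FinL.delta_ne) (SI.S5 O hdet R)))

theorem clu_card {k : ℕ} (O : Sites k) (hO : O.Connected) (w : Fin k → ℤ) (W : ℤ) (m K C : ℕ) 
    (hk : k ≤ K) (hm : m ≤ K) (hC : O.crossings.length ≤ C) (R : Finset (Fin k)) : 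
    (clu O w W m R).coeff.support.card ≤ 12 * K + 6 * C + 1 := by
  have h := VS.card_support_le (clu O w W m R) _ (2 * (3 * O.crossings.length + 4 * k + 2 * m)) 
    (by positivity) (fun j hj => by
      have := clu_SIn O hO w W m R j hj
      exact ⟨this.1, by linarith [this.2]⟩)
  have h2 : (3 * O.crossings.length + 4 * k + 2 * m : ℤ) ≤ 6 * K + 3 * C := by
    have h3 : (k : ℤ) ≤ K := by exact_mod_cast hk
    have h4 : (m : ℤ) ≤ K := by exact_mod_cast hm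
    have h5 : (O.crossings.length : ℤ) ≤ C := by exact_mod_cast hC
    linarith
  omega

theorem sum_card {k : ℕ} (hk0 : 0 < k) (O : Sites k) (hO : O.Connected) (w : Fin k → ℤ) 
    (D : Diagram (O.P ⊕ Ribbon.Pt w)) (hD : Orients D (O.fill w)) (m K C : ℕ) 
    (hk : k ≤ K) (hm : m ≤ K) (hC : O.crossings.length ≤ C) : 
    ((-T 2 - T (-2)) ^ (k + m) * D.fPoly : ℤ[T;T⁻¹]).coeff.support.card ≤ 
      2 ^ K * (12 * K + 6 * C + 1) := by
  rw [← sum_clu hk0 O w D hD m]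
  refine (VS.card_support_sum _ _ _ (fun R _ => clu_card O hO w D.writhe m K C hk hm hC R)).trans ?_
  refine Nat.mul_le_mul ?_ le_rfl
  simp only [Finset.card_univ, Fintype.card_finset, Fintype.card_fin]
  exact Nat.pow_le_pow_right (by norm_num) hk

theorem sep {k : ℕ} (K C : ℕ) (w : Fin k → ℤ) 
    (hw : Generic ((3 * K + 1) * (12 * (K + C))) w) (W : ℤ) (R R' : Finset (Fin k)) (h : R ≠ R') :
    2 * (6 * K + 3 * C : ℤ) < |(-3 * W + ∑ e, w e - 4 * nS w R) - 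
      (-3 * W + ∑ e, w e - 4 * nS w R')| := by
  have h1 := hw (fun e => (if e ∈ R' then 1 else 0) - (if e ∈ R then 1 else 0)) (fun e => by
    split_ifs <;> simp) (fun h0 => h (by
      ext e
      have := congrFun h0 e
      simp only [Pi.zero_apply] at this
      by_cases a : e ∈ R <;> by_cases b : e ∈ R' <;> simp [a, b] at this ⊢))
  have h2 : ∑ e, ((if e ∈ R' then 1 else 0) - (if e ∈ R then 1 else 0)) * w e = 
      nS w R' - nS w R := by
    simp only [sub_mul, ite_mul, one_mul, zero_mul, Finset.sum_sub_distrib, nS, 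
      Finset.sum_ite_mem, Finset.univ_inter]
  rw [h2] at h1
  have h3 : (-3 * W + ∑ e, w e - 4 * nS w R) - (-3 * W + ∑ e, w e - 4 * nS w R') = 
      4 * (nS w R' - nS w R) := by ring
  rw [h3, abs_mul]
  have hK : (0 : ℤ) ≤ K := by positivity
  have hC : (0 : ℤ) ≤ C := by positivity
  have h4 : (12 * (K + C) : ℤ) ≤ (3 * K + 1) * (12 * (K + C)) := by nlinarith
  have h5 : |(4 : ℤ)| = 4 := by norm_num
  rw [h5]
  nlinarith [abs_nonneg (nS w R' - nS w R)]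

theorem main (K C : ℕ) {k k' : ℕ} (hk0 : 0 < k) (hk0' : 0 < k') (hk : k ≤ K) (hk' : k' ≤ K)
    (O : Sites k) (O' : Sites k') (hO : O.Connected) (hO' : O'.Connected) 
    (hC : O.crossings.length ≤ C) (hC' : O'.crossings.length ≤ C) 
    (hdet : det O.cut ≠ 0) (hdet' : det O'.cut ≠ 0) (w : Fin k → ℤ) (w' : Fin k' → ℤ) 
    (hw : Generic ((3 * K + 1) * (12 * (K + C))) w) (hw' : Generic ((3 * K + 1) * (12 * (K + C))) w')
    (D : Diagram (O.P ⊕ Ribbon.Pt w)) (D' : Diagram (O'.P ⊕ Ribbon.Pt w')) 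
    (hD : Orients D (O.fill w)) (hD' : Orients D' (O'.fill w')) (hc : D.IsClosed) 
    (hc' : D'.IsClosed) 
    (hs : ¬ Separated (2 ^ (K + 1) * (12 * K + 6 * C + 1)) ⟨_, inferInstance, D⟩ 
      ⟨_, inferInstance, D'⟩) :
    ∃ σ : Fin k ≃ Fin k', ∀ e, |w e - w' (σ e)| ≤ 12 * (K + C) := by
  classical
  have hkZ : (k : ℤ) ≤ K := by exact_mod_cast hk
  have hkZ' : (k' : ℤ) ≤ K := by exact_mod_cast hk'
  have hCZ : (O.crossings.length : ℤ) ≤ C := by exact_mod_cast hC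
  have hCZ' : (O'.crossings.length : ℤ) ≤ C := by exact_mod_cast hC'
  -- equality of the Jones polynomials
  have hf : D.fPoly = D'.fPoly := by
    by_contra hne
    apply hs
    refine FinL.separated_mono (Nat.sub_le _ 1) (separated_of_ne 
      (2 ^ (K + 1) * (12 * K + 6 * C + 1)) ⟨_, inferInstance, D⟩ ⟨_, inferInstance, D'⟩ 
      ((-T 2 - T (-2)) ^ (k + k')) (pow_ne_zero _ FinL.delta_ne) ?_ hne)
    rw [mul_sub]
    refine (FinL.card_support_sub _ _).trans ?_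
    have a1 := sum_card hk0 O hO w D hD k' K C hk hk' hC
    have a2 := sum_card hk0' O' hO' w' D' hD' k K C hk' hk hC'
    rw [add_comm k' k] at a2
    have := add_le_add a1 a2
    refine this.trans (le_of_eq ?_)
    rw [pow_succ]
    ring
  have hsum : ∑ R, clu O w D.writhe k' R = ∑ R, clu O' w' D'.writhe k R := by
    rw [sum_clu hk0 O w D hD k', sum_clu hk0' O' w' D' hD' k, hf, add_comm k k']
  have hS : ∀ R, SIn (clu O w D.writhe k' R) 
      ((-3 * D.writhe + ∑ e, w e - 4 * nS w R) - (6 * K + 3 * C : ℤ)) 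
      ((-3 * D.writhe + ∑ e, w e - 4 * nS w R) + (6 * K + 3 * C : ℤ)) := fun R =>
    (clu_SIn O hO w D.writhe k' R).mono (by linarith) (by linarith)
  have hS' : ∀ R, SIn (clu O' w' D'.writhe k R) 
      ((-3 * D'.writhe + ∑ e, w' e - 4 * nS w' R) - (6 * K + 3 * C : ℤ)) 
      ((-3 * D'.writhe + ∑ e, w' e - 4 * nS w' R) + (6 * K + 3 * C : ℤ)) := fun R =>
    (clu_SIn O' hO' w' D'.writhe k R).mono (by linarith) (by linarith)
  have c1 := clusters (6 * K + 3 * C : ℤ) _ _ _ _ hS (fun R => clu_ne O hdet w D.writhe k' R) hS' 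
    (fun R R' h => sep K C w hw D.writhe R R' h) hsum
  have c2 := clusters (6 * K + 3 * C : ℤ) _ _ _ _ hS' (fun R => clu_ne O' hdet' w' D'.writhe k R) hS 
    (fun R R' h => sep K C w' hw' D'.writhe R R' h) hsum.symm
  obtain ⟨τ, hτ, hW⟩ := writhe_fill O w D hD hc
  obtain ⟨τ', hτ', hW'⟩ := writhe_fill O' w' D' hD' hc'
  have key : ∀ (R : Finset (Fin k)) (R' : Finset (Fin k')), 
      |(-3 * D.writhe + ∑ e, w e - 4 * nS w R) - (-3 * D'.writhe + ∑ e, w' e - 4 * nS w' R')| ≤ 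
        2 * (6 * K + 3 * C : ℤ) → 
      |(∑ e, (1 - 3 * τ e) * w e - 4 * ∑ e ∈ R, w e) - 
        (∑ e, (1 - 3 * τ' e) * w' e - 4 * ∑ e ∈ R', w' e)| ≤ 12 * (K + C) := by
    intro R R' h
    have e1 : ∑ e, (1 - 3 * τ e) * w e = ∑ e, w e - 3 * ∑ e, τ e * w e := by
      rw [Finset.mul_sum, ← Finset.sum_sub_distrib]
      exact Finset.sum_congr rfl fun e _ => by ring
    have e2 : ∑ e, (1 - 3 * τ' e) * w' e = ∑ e, w' e - 3 * ∑ e, τ' e * w' e := by
      rw [Finset.mul_sum, ← Finset.sum_sub_distrib]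
      exact Finset.sum_congr rfl fun e _ => by ring
    rw [e1, e2]
    have f1 : ∑ e ∈ R, w e = nS w R := rfl
    have f2 : ∑ e ∈ R', w' e = nS w' R' := rfl
    rw [f1, f2]
    rw [abs_le] at h hW hW' ⊢
    constructor <;> linarith [h.1, h.2, hW.1, hW.2, hW'.1, hW'.2]
  have h1 : ∀ R : Finset (Fin k), ∃ R' : Finset (Fin k'), 
      |(∑ e, (1 - 3 * τ e) * w e - 4 * ∑ e ∈ R, w e) - 
        (∑ e, (1 - 3 * τ' e) * w' e - 4 * ∑ e ∈ R', w' e)| ≤ 12 * (K + C) := by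
    intro R
    obtain ⟨R', hR'⟩ := c1 R
    exact ⟨R', key R R' hR'⟩
  have h2 : ∀ R' : Finset (Fin k'), ∃ R : Finset (Fin k), 
      |(∑ e, (1 - 3 * τ e) * w e - 4 * ∑ e ∈ R, w e) - 
        (∑ e, (1 - 3 * τ' e) * w' e - 4 * ∑ e ∈ R', w' e)| ≤ 12 * (K + C) := by
    intro R'
    obtain ⟨R, hR⟩ := c2 R'
    refine ⟨R, key R R' ?_⟩
    rw [abs_sub_comm]
    exact hR
  exact decode (12 * (K + C)) (by positivity) K hk hk' w w' τ τ' hτ hτ' hw hw' h1 h2

end Pool.Agent.H891R2.TR
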