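import Pool.Agent.H891R2.TR.Defs
import Pool.Agent.H891R2.SI.Defs

set_option autoImplicit false

/-! Statements of the tasks (for distribution only; do not import). -/

namespace Pool.Agent.H891R2.TR

open Finset Pool.Agent.H891R2.Jones Pool.Agent.H891R2.MT Pool.Agent.H891R2.SI

/-- TR1: the writhe of a diagram with filled sites -/
theorem writhe_fill {k : ℕ} (O : Sites k) (w : Fin k → ℤ) (D : Diagram (O.P ⊕ Ribbon.Pt w)) 
    (hD : Orients D (O.fill w)) (hc : D.IsClosed) : 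
    ∃ τ : Fin k → ℤ, (∀ e, τ e = 1 ∨ τ e = -1) ∧ 
      |D.writhe - ∑ e, τ e * w e| ≤ O.crossings.length := by
  sorry

/-- TR3: decoding -/
theorem decode {k k' : ℕ} (E : ℤ) (hE : 0 ≤ E) (K : ℕ) (hk : k ≤ K) (hk' : k' ≤ K) 
    (w : Fin k → ℤ) (w' : Fin k' → ℤ) (τ : Fin k → ℤ) (τ' : Fin k' → ℤ) 
    (hτ : ∀ e, τ e = 1 ∨ τ e = -1) (hτ' : ∀ e, τ' e = 1 ∨ τ' e = -1) 
    (hw : Generic ((3 * K + 1) * E) w) (hw' : Generic ((3 * K + 1) * E) w')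
    (h1 : ∀ R : Finset (Fin k), ∃ R' : Finset (Fin k'), 
      |(∑ e, (1 - 3 * τ e) * w e - 4 * ∑ e ∈ R, w e) - 
        (∑ e, (1 - 3 * τ' e) * w' e - 4 * ∑ e ∈ R', w' e)| ≤ E)
    (h2 : ∀ R' : Finset (Fin k'), ∃ R : Finset (Fin k), 
      |(∑ e, (1 - 3 * τ e) * w e - 4 * ∑ e ∈ R, w e) - 
        (∑ e, (1 - 3 * τ' e) * w' e - 4 * ∑ e ∈ R', w' e)| ≤ E) :
    ∃ σ : Fin k ≃ Fin k', ∀ e, |w e - w' (σ e)| ≤ E := by
  sorry

/-- TR5: almost all vectors are generic -/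
theorem count_generic {k : ℕ} (hk : 0 < k) (M N : ℕ) : 
    {w : Fin k → ℤ | (∀ e, |w e| ≤ N) ∧ ¬ Generic (M : ℤ) w}.ncard ≤ 
      17 ^ k * (2 * M + 1) * (2 * N + 1) ^ (k - 1) := by
  sorry

end Pool.Agent.H891R2.TR
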