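import Pool.Agent.H891R2.SI.Defs

set_option autoImplicit false

namespace Pool.Agent.H891R2.TR.W1

open Finset Pool.Agent.H891R2.Jones Pool.Agent.H891R2.MT Pool.Agent.H891R2.SI

/-- the four points -/
def pts {P : Type} (x : Crossing P) : P × P × P × P := (x.a, x.b, x.c, x.d)

theorem no_start {P : Type} [DecidableEq P] (D : Diagram P) (hc : D.IsClosed) (x y : Crossing P)
    (hx : x ∈ D.crossings) (hy : y ∈ D.crossings) (p : P) 
    (h1 : (if x.underFwd then x.a else x.c) = p) (h2 : (if y.overFwd then y.b else y.d) = p) : 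
    False := by
  have h := (hc p).1
  unfold Diagram.starts at h
  rw [List.count_append, List.count_append] at h
  have a1 : 0 < (D.crossings.map (fun x => if x.underFwd then x.a else x.c)).count p :=
    List.count_pos_iff.2 (List.mem_map.2 ⟨x, hx, h1⟩)
  have a2 : 0 < (D.crossings.map (fun x => if x.overFwd then x.b else x.d)).count p :=
    List.count_pos_iff.2 (List.mem_map.2 ⟨y, hy, h2⟩)
  omega

theorem no_end {P : Type} [DecidableEq P] (D : Diagram P) (hc : D.IsClosed) (x y : Crossing P)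
    (hx : x ∈ D.crossings) (hy : y ∈ D.crossings) (p : P) 
    (h1 : (if x.underFwd then x.c else x.a) = p) (h2 : (if y.overFwd then y.d else y.b) = p) : 
    False := by
  have h := (hc p).2
  unfold Diagram.ends at h
  rw [List.count_append, List.count_append] at h
  have a1 : 0 < (D.crossings.map (fun x => if x.underFwd then x.c else x.a)).count p :=
    List.count_pos_iff.2 (List.mem_map.2 ⟨x, hx, h1⟩)
  have a2 : 0 < (D.crossings.map (fun x => if x.overFwd then x.d else x.b)).count p :=
    List.count_pos_iff.2 (List.mem_map.2 ⟨y, hy, h2⟩)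
  omega

/-- a list over a list of indices -/
theorem lift_list {α β γ : Type*} (X : List α) (g : α → β) (S : List γ) (hS : S.Nodup) (t : γ → β) 
    (h : X.map g = S.map t) (hne : ∀ s : γ, s ∈ S) : ∃ x : γ → α, (∀ s, g (x s) = t s) ∧ X = S.map x := by
  classical
  have hlen : X.length = S.length := by
    have := congrArg List.length h
    simpa using this
  have hi : ∀ s, S.idxOf s < X.length := fun s => by
    rw [hlen]
    exact List.idxOf_lt_length_of_mem (hne s)
  refine ⟨fun s => X[S.idxOf s]'(hi s), fun s => ?_, ?_⟩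
  · have h1 : (X.map g)[S.idxOf s]'(by simpa using hi s) = (S.map t)[S.idxOf s]'(by 
      rw [List.length_map, ← hlen]; exact hi s) := by simp only [h]
    rw [List.getElem_map, List.getElem_map] at h1
    rw [h1]
    congr 1
    exact List.getElem_idxOf (by rw [← hlen]; exact hi s)
  · refine List.ext_getElem (by simpa using hlen) fun i h1 h2 => ?_
    rw [List.getElem_map]
    congr 1
    rw [List.Nodup.idxOf_getElem hS]

/-- sum of numbers of absolute value at most one -/
theorem abs_sum_le {α : Type*} (l : List α) (g : α → ℤ) (h : ∀ x ∈ l, |g x| ≤ 1) : 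
    |(l.map g).sum| ≤ l.length := by
  induction l with
  | nil => simp
  | cons x l ih =>
    rw [List.map_cons, List.sum_cons, List.length_cons]
    have h1 := h x (by simp)
    have h2 := ih (fun y hy => h y (by simp [hy]))
    have h3 := abs_add_le (g x) ((l.map g).sum)
    push_cast
    linarith

theorem abs_sign {P : Type} (x : Crossing P) : |x.sign| ≤ 1 := by
  unfold Crossing.sign
  split_ifs <;> simp

theorem nodup_sig (k : ℕ) (m : Fin k → ℕ) : 
    ((List.finRange k).flatMap (fun e => (List.finRange (m e)).map (Sigma.mk (β := fun e => Fin (m e)) e))).Nodup := by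
  rw [List.nodup_flatMap]
  refine ⟨fun e _ => (List.nodup_finRange _).map sigma_mk_injective, ?_⟩
  refine (List.nodup_finRange k).imp_of_mem ?_
  intro a b _ _ hab
  rw [Function.onFun]
  intro x hx hy
  rw [List.mem_map] at hx hy
  obtain ⟨i, -, rfl⟩ := hx
  obtain ⟨j, -, hj⟩ := hy
  exact hab (congrArg Sigma.fst hj).symm

theorem mem_sig (k : ℕ) (m : Fin k → ℕ) (s : Σ e : Fin k, Fin (m e)) : 
    s ∈ ((List.finRange k).flatMap (fun e => (List.finRange (m e)).map (Sigma.mk (β := fun e => Fin (m e)) e))) := by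
  rw [List.mem_flatMap]
  exact ⟨s.1, List.mem_finRange _, List.mem_map.2 ⟨s.2, List.mem_finRange _, rfl⟩⟩

/-- the crossing number `j` in the site `e` -/
def tw {k : ℕ} (O : Sites k) (w : Fin k → ℤ) (s : Σ e : Fin k, Fin (w e).natAbs) : 
    (O.P ⊕ Ribbon.Pt w) × (O.P ⊕ Ribbon.Pt w) × (O.P ⊕ Ribbon.Pt w) × (O.P ⊕ Ribbon.Pt w) :=
  Prod.map .inr (Prod.map .inr (Prod.map .inr .inr)) (Ribbon.twistCrossing w s.1 s.2)

theorem sign_succ {k : ℕ} (O : Sites k) (w : Fin k → ℤ) (D : Diagram (O.P ⊕ Ribbon.Pt w)) 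
    (hc : D.IsClosed) (e : Fin k) (i j : Fin (w e).natAbs) (hij : j.1 = i.1 + 1) 
    (x y : Crossing (O.P ⊕ Ribbon.Pt w)) (hx : x ∈ D.crossings) (hy : y ∈ D.crossings) 
    (hxp : pts x = tw O w ⟨e, i⟩) (hyp : pts y = tw O w ⟨e, j⟩) : x.sign = y.sign := by
  have hlev : j.castSucc = i.succ := by
    ext
    simp [hij]
  unfold tw Ribbon.twistCrossing pts at hxp hyp
  simp only [hlev] at hyp
  by_cases hw : 0 < w e
  · simp only [hw, if_true, Prod.map, Prod.mk.injEq] at hxp hyp
    obtain ⟨xa, xb, xc, xd⟩ := hxp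
    obtain ⟨ya, yb, yc, yd⟩ := hyp
    have s1 := no_start D hc x y hx hy x.c
    have e1 := no_end D hc x y hx hy x.c
    have s2 := no_start D hc y x hy hx x.b
    have e2 := no_end D hc y x hy hx x.b
    rw [← xc] at yd
    rw [← xb] at ya
    unfold Crossing.sign
    rcases hxu : x.underFwd <;> rcases hxo : x.overFwd <;> rcases hyu : y.underFwd <;> 
      rcases hyo : y.overFwd <;> simp [hxu, hxo, hyu, hyo, ya, yd] at s1 e1 s2 e2 ⊢
  · simp only [hw, if_false, Prod.map, Prod.mk.injEq] at hxp hyp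
    obtain ⟨xa, xb, xc, xd⟩ := hxp
    obtain ⟨ya, yb, yc, yd⟩ := hyp
    have s1 := no_start D hc x y hx hy x.c
    have e1 := no_end D hc x y hx hy x.c
    have s2 := no_start D hc y x hy hx x.d
    have e2 := no_end D hc y x hy hx x.d
    rw [← xc] at yb
    rw [← xd] at ya
    unfold Crossing.sign
    rcases hxu : x.underFwd <;> rcases hxo : x.overFwd <;> rcases hyu : y.underFwd <;> 
      rcases hyo : y.overFwd <;> simp [hxu, hxo, hyu, hyo, ya, yb] at s1 e1 s2 e2 ⊢

theorem writhe_fill {k : ℕ} (O : Sites k) (w : Fin k → ℤ) (D : Diagram (O.P ⊕ Ribbon.Pt w)) 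
    (hD : Orients D (O.fill w)) (hc : D.IsClosed) : 
    ∃ τ : Fin k → ℤ, (∀ e, τ e = 1 ∨ τ e = -1) ∧ 
      |D.writhe - ∑ e, τ e * w e| ≤ O.crossings.length := by
  classical
  have h2 := hD.2
  unfold Sites.fill at h2
  simp only at h2
  rw [List.map_eq_append_iff] at h2
  obtain ⟨X0, X1, hX, h0, h1⟩ := h2
  set S : List (Σ e : Fin k, Fin (w e).natAbs) := (List.finRange k).flatMap 
    (fun e => (List.finRange (w e).natAbs).map (Sigma.mk e)) with hS
  have h3 : X1.map pts = S.map (tw O w) := by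
    have : (fun x : Crossing (O.P ⊕ Ribbon.Pt w) => (x.a, x.b, x.c, x.d)) = pts := rfl
    rw [← this, h1, hS, List.map_flatMap]
    simp only [List.map_map]
    rfl
  obtain ⟨x, hx, hX1⟩ := lift_list X1 pts S (nodup_sig k _) (tw O w) h3 (mem_sig k _)
  have hmem : ∀ s, x s ∈ D.crossings := fun s => by
    rw [hX, List.mem_append]
    right
    rw [hX1]
    exact List.mem_map.2 ⟨s, mem_sig k _ s, rfl⟩
  -- all signs of a site are equal
  have hsame : ∀ (e : Fin k) (j : ℕ) (hj : j < (w e).natAbs), 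
      (x ⟨e, ⟨j, hj⟩⟩).sign = (x ⟨e, ⟨0, by omega⟩⟩).sign := by
    intro e j
    induction j with
    | zero => intro hj; rfl
    | succ j ih =>
      intro hj
      rw [← ih (by omega)]
      exact (sign_succ O w D hc e ⟨j, by omega⟩ ⟨j+1, hj⟩ rfl _ _ (hmem _) (hmem _) (hx _) (hx _)).symm
  have hsg : ∀ y : Crossing (O.P ⊕ Ribbon.Pt w), y.sign = 1 ∨ y.sign = -1 := fun y => by
    unfold Crossing.sign
    split_ifs <;> simp
  have hτ : ∀ e : Fin k, ∃ t : ℤ, (t = 1 ∨ t = -1) ∧ ∑ j : Fin (w e).natAbs, (x ⟨e, j⟩).sign = t * w e := by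
    intro e
    by_cases hw : w e = 0
    · refine ⟨1, Or.inl rfl, ?_⟩
      have : IsEmpty (Fin (w e).natAbs) := by rw [hw]; exact Fin.isEmpty
      rw [Fintype.sum_empty, hw]
      ring
    · have hpos : 0 < (w e).natAbs := Int.natAbs_pos.2 hw
      have hsum : ∑ j : Fin (w e).natAbs, (x ⟨e, j⟩).sign = 
          (w e).natAbs * (x ⟨e, ⟨0, hpos⟩⟩).sign := by
        have h4 : ∑ j : Fin (w e).natAbs, (x ⟨e, j⟩).sign = 
            ∑ _j : Fin (w e).natAbs, (x ⟨e, ⟨0, hpos⟩⟩).sign := 
          Finset.sum_congr rfl (fun j _ => hsame e j.1 j.2)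
        rw [h4, Finset.sum_const, Finset.card_univ, Fintype.card_fin, nsmul_eq_mul]
      rw [hsum]
      rcases lt_or_gt_of_ne hw with hneg | hp
      · refine ⟨- (x ⟨e, ⟨0, hpos⟩⟩).sign, ?_, ?_⟩
        · rcases hsg (x ⟨e, ⟨0, hpos⟩⟩) with h | h <;> simp [h]
        · have : ((w e).natAbs : ℤ) = - w e := by omega
          rw [this]
          ring
      · refine ⟨(x ⟨e, ⟨0, hpos⟩⟩).sign, hsg _, ?_⟩
        have : ((w e).natAbs : ℤ) = w e := by omega
        rw [this]
        ring
  choose τ hτ1 hτ2 using hτ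
  refine ⟨τ, hτ1, ?_⟩
  have hw1 : D.writhe = (X0.map Crossing.sign).sum + ∑ e, τ e * w e := by
    unfold Diagram.writhe
    rw [hX, List.map_append, List.sum_append]
    congr 1
    rw [hX1, List.map_map, hS, List.map_flatMap, List.flatMap_def, List.sum_flatten, List.map_map,
      ← Finset.sum_congr rfl (fun e _ => hτ2 e), Fin.sum_univ_def]
    congr 1
    refine List.map_congr_left fun e _ => ?_
    simp only [Function.comp, List.map_map]
    rw [Fin.sum_univ_def]
    rfl
  rw [hw1, add_sub_cancel_right]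
  have hlen : X0.length = O.crossings.length := by
    have := congrArg List.length h0
    simpa using this
  rw [← hlen]
  exact abs_sum_le X0 _ (fun y _ => abs_sign y)

end Pool.Agent.H891R2.TR.W1
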